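import Pool.Agent.Lib.MP_8115c2_gt.Two.Main

/-!
The least Hausdorff area of an intrinsic metric on the disc whose boundary distances dominate the
Euclidean ones is pi.
-/

open MeasureTheory Set Metric

namespace Pool.Agent.Results.MP_8115c2_gt.DiscArea

/-- The map `φ` is a homeomorphism of `X` onto the closed Euclidean unit disc, the metric of `X` is
intrinsic, and it dominates the Euclidean distance between points of the unit circle. -/
def Admissible (X : Type) [MetricSpace X] (φ : X → EuclideanSpace ℝ (Fin 2)) : Prop :=
  Topology.IsEmbedding φ ∧ range φ = closedBall 0 1 ∧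
    (∀ x y : X, edist x y = ⨅ γ : Path x y, eVariationOn γ univ) ∧
    ∀ x y : X, ‖φ x‖ = 1 → ‖φ y‖ = 1 → dist (φ x) (φ y) ≤ dist x y

/-- The set of the areas of the admissible metric discs. -/
def areas : Set ENNReal :=
  {a | ∃ (X : Type) (_ : MetricSpace X) (_ : MeasurableSpace X) (_ : BorelSpace X)
    (φ : X → EuclideanSpace ℝ (Fin 2)), Admissible X φ ∧
      a = Measure.euclideanHausdorffMeasure 2 (univ : Set X)}

theorem result : IsLeast areas (ENNReal.ofReal Real.pi) := by
  constructor
  · refine ⟨closedBall (0 : EuclideanSpace ℝ (Fin 2)) 1, inferInstance, inferInstance,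
      inferInstance, Subtype.val, ⟨Topology.IsEmbedding.subtypeVal, Subtype.range_val,
      fun x y => le_antisymm (le_iInf fun γ => ?_) ?_, fun _ _ _ _ => le_rfl⟩, ?_⟩
    · have h := eVariationOn.edist_le γ (mem_univ 0) (mem_univ 1)
      rwa [γ.source, γ.target] at h
    · let γ : Path x y :=
        { toFun := fun t => ⟨AffineMap.lineMap x.1 y.1 (t : ℝ),
            (convex_closedBall _ _).lineMap_mem x.2 y.2 t.2⟩
          continuous_toFun := by fun_prop
          source' := by simp
          target' := by simp }
      refine (iInf_le _ γ).trans ?_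
      have h1 : LipschitzWith (nndist x y) fun t : ℝ => AffineMap.lineMap x.1 y.1 t :=
        lipschitzWith_lineMap x.1 y.1
      have h2 := (h1.lipschitzOnWith (s := univ)).comp_eVariationOn_le
        (g := fun t : unitInterval => (t : ℝ)) (s := univ) (mapsTo_univ _ _)
      have h3 := MonotoneOn.eVariationOn_le (f := fun t : unitInterval => (t : ℝ)) (s := univ)
        (fun _ _ _ _ h => h) (mem_univ 0) (mem_univ 1)
      have h4 : (univ : Set unitInterval) ∩ Icc 0 1 = univ := by
        rw [univ_inter]
        exact eq_univ_of_forall fun t => ⟨t.2.1, t.2.2⟩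
      rw [h4] at h3
      refine le_trans (le_of_eq rfl) (h2.trans ?_)
      rw [edist_nndist]
      exact mul_le_of_le_one_right' (by simpa using h3)
    · have h := isometry_subtype_coe.euclideanHausdorffMeasure_image
        (d := 2) (univ : Set (closedBall (0 : EuclideanSpace ℝ (Fin 2)) 1))
      rw [← h, image_univ, Subtype.range_val, EuclideanSpace.euclideanHausdorffMeasure_eq_volume,
        EuclideanSpace.volume_closedBall_fin_two]
      simp
  · rintro _ ⟨X, _, _, _, φ, ⟨h1, h2, -, h3⟩, rfl⟩
    refine Pool.Agent.Lib.MP_8115c2_gt.Log.pi_le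
      (h1.toHomeomorph.trans (Homeomorph.setCongr h2)) fun x y hx hy => ?_
    have := h3 x y hx hy
    rw [dist_eq_norm] at this
    exact this

end Pool.Agent.Results.MP_8115c2_gt.DiscArea
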