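import Pool.Agent.Lib.MP_8115c2_gt.Bu.Exp

/-!
In every large dimension a multiple of the boundary of a flat, almost Euclidean unit cube bounds
an integral simplicial chain whose Hausdorff measure is smaller by a factor exponential in the
dimension.
-/

open MeasureTheory Set

namespace Pool.Agent.Results.MP_8115c2_gt.FlatExponentialGap

/-- The linear map sending the standard basis of Euclidean space to the vectors `v j` of the
space of real functions on `Fin N` with the sup norm. -/
noncomputable def lin {n N : ℕ} (v : Fin n → Fin N → ℝ) (x : EuclideanSpace ℝ (Fin n)) :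
    Fin N → ℝ :=
  ∑ j, x j • v j

/-- Integral simplicial chains: a simplex is the list of its vertices. -/
abbrev Chain (N : ℕ) := List (Fin N → ℝ) →₀ ℤ

/-- The boundary: the alternating sum of the faces obtained by deleting one vertex. -/
noncomputable def bdry {N : ℕ} (α : Chain N) : Chain N :=
  α.sum fun l c => ∑ i ∈ Finset.range l.length, Finsupp.single (l.eraseIdx i) ((-1) ^ i * c)

/-- The standard triangulation of the parallelepiped spanned by the vectors `v j`: one simplex
`0, v (σ 0), v (σ 0) + v (σ 1), …` for each permutation `σ`, with its sign. -/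
noncomputable def kuhn {n N : ℕ} (v : Fin n → Fin N → ℝ) : Chain N :=
  ∑ σ : Equiv.Perm (Fin n),
    Finsupp.single (List.ofFn (Fin.partialSum (v ∘ σ))) (Equiv.Perm.sign σ : ℤ)

/-- The `n`-dimensional Hausdorff measure for the sup norm. -/
noncomputable def haus {N : ℕ} (n : ℕ) (s : Set (Fin N → ℝ)) : ENNReal :=
  Measure.euclideanHausdorffMeasure n s

/-- The mass of a chain: the measures of its simplices, counted with multiplicity. -/
noncomputable def mass {N : ℕ} (n : ℕ) (α : Chain N) : ENNReal :=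
  α.sum fun l c => c.natAbs * haus n (convexHull ℝ {x | x ∈ l})

open Pool.Agent.Lib.MP_8115c2_gt.Bu in
theorem result : ∃ c : ℝ, 0 < c ∧ c < 1 ∧ ∃ n₀ : ℕ, ∀ n ≥ n₀, ∀ l : ℝ, 1 < l →
    ∃ (N k : ℕ) (v : Fin n → Fin N → ℝ) (α : Chain N),
      (∀ x : EuclideanSpace ℝ (Fin n), ‖x‖ ≤ ‖lin v x‖ ∧ ‖lin v x‖ ≤ l * ‖x‖) ∧
      (∀ s ∈ α.support, s.length = n + 1) ∧ bdry α = k • bdry (kuhn v) ∧
      mass n α < k * ENNReal.ofReal (c ^ n) ∧
      1 ≤ haus n (lin v '' {x | ∀ i, x i ∈ Icc (0 : ℝ) 1}) := by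
  obtain ⟨c, c0, c1, n₀, h⟩ := bS_round
  refine ⟨c, c0, c1, max n₀ 2, fun n hn l hl => ?_⟩
  obtain ⟨N, A₀, m, A, h1, h2, h3⟩ := h n (le_of_max_le_left hn) l hl
  have hn2 := le_of_max_le_right hn
  have e : lin A₀.transpose = fun x : E n => A₀.mulVec x := by
    funext x k
    simp [lin, Matrix.mulVec, dotProduct, Finset.sum_apply, mul_comm]
  have e1 : ∀ α : Chain N, io (bdry α) = bd (io α) := fun α => by
    conv_rhs => rw [← α.sum_single, map_finsuppSum, map_finsuppSum]
    rw [bdry, map_finsuppSum]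
    refine Finsupp.sum_congr fun l _ => ?_
    simp [io_single, bd_single, -Finsupp.single_mul]
  have e2 : io (kuhn A₀.transpose) = Ku A₀.transpose := by
    simp only [kuhn, Ku, map_sum, io_single]
  obtain ⟨k, α, h4, h8, h9⟩ := fill_pow hn2 h2 c0 h3 (z := bdry (kuhn A₀.transpose))
    (by rw [e1, e2])
  refine ⟨N, k, A₀.transpose, α, by rw [e]; exact h1, h4,
    io_inj (by rw [e1, h8, map_nsmul]), ?_,
    by rw [e, ← vol_cube]; exact dom_le A₀ (fun x => (h1 x).1) _⟩
  have h0 : ∀ l ∈ α.support, (α l).natAbs * haus n (convexHull ℝ {x | x ∈ l}) ≠ ⊤ := fun l hl =>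
    ENNReal.mul_ne_top (by simp) (hv_fin hn2 (h4 l hl))
  have h10 : Ms (wt n) (io α) = (mass n α).toReal := by
    rw [Ms_apply, mass, Finsupp.sum_of_support_subset (io α) (s := α.support)
      (Finsupp.support_mapRange (hf := Int.cast_zero)) _ (by simp), Finsupp.sum,
      ENNReal.toReal_sum h0]
    refine Finset.sum_congr rfl fun l _ => ?_
    rw [ENNReal.toReal_mul, ENNReal.toReal_natCast, Nat.cast_natAbs, Int.cast_abs]
    rfl
  have h11 : mass n α ≠ ⊤ := ENNReal.sum_ne_top.2 h0
  rw [h10, ← ENNReal.toReal_natCast, ← ENNReal.toReal_ofReal (pow_pos c0 n).le,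
    ← ENNReal.toReal_mul] at h9
  exact (ENNReal.toReal_lt_toReal h11
    (ENNReal.mul_ne_top (by simp) ENNReal.ofReal_ne_top)).1 h9

end Pool.Agent.Results.MP_8115c2_gt.FlatExponentialGap
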