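import Pool.Agent.Lib.MP_8115c2_gt.Main

/-!
Rotation invariant intrinsic metrics on the closed unit ball whose boundary distances dominate the
Euclidean ones have Hausdorff volume at least the volume of the Euclidean ball.
-/

open MeasureTheory Metric

namespace Pool.Agent.Results.MP_8115c2_gt.Invariant

variable {V X : Type} [NormedAddCommGroup V] [NormedSpace ℝ V] [MetricSpace X]

/-- The metric of `X`, seen on the unit ball through the homeomorphism `e`, is intrinsic and
dominates the distance of `V` on the unit sphere. -/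
def Admissible (e : X ≃ₜ closedBall (0 : V) 1) : Prop :=
  (∀ x y : X, edist x y = ⨅ γ : Path x y, eVariationOn γ Set.univ) ∧
    ∀ x y : X, ‖(e x).1‖ = 1 → ‖(e y).1‖ = 1 → ‖(e x).1 - (e y).1‖ ≤ dist x y

/-- The metric of `X`, seen on the unit ball through `e`, is invariant under linear isometries. -/
def Invariant (e : X ≃ₜ closedBall (0 : V) 1) : Prop :=
  ∀ (g : V ≃ₗᵢ[ℝ] V) (x y x' y' : X), (e x').1 = g (e x).1 → (e y').1 = g (e y).1 →
    dist x' y' = dist x y

theorem result (n : ℕ) (hn : 2 ≤ n) (X : Type) [MetricSpace X] [MeasurableSpace X] [BorelSpace X]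
    (e : X ≃ₜ closedBall (0 : EuclideanSpace ℝ (Fin n)) 1) (ha : Admissible e) (hi : Invariant e) :
    volume (closedBall (0 : EuclideanSpace ℝ (Fin n)) 1) ≤
      Measure.euclideanHausdorffMeasure n (Set.univ : Set X) := by
  obtain ⟨m, rfl⟩ := Nat.exists_eq_add_of_le' hn
  exact Pool.Agent.Lib.MP_8115c2_gt.main e ha.1 ha.2 hi

end Pool.Agent.Results.MP_8115c2_gt.Invariant
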