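import Pool.Agent.Lib.MP_8115c2_gt.Log.Main

/-!
A metric ball whose boundary distances dominate the Euclidean ones has Hausdorff measure at least
the n-th power of c / log n times the volume of the Euclidean unit ball.
-/

open MeasureTheory

namespace Pool.Agent.Results.MP_8115c2_gt.LogBound

/-- The map `φ` is a homeomorphism of `X` onto the closed Euclidean unit ball. -/
def IsBallChart {n : ℕ} {X : Type} [MetricSpace X] (φ : X → EuclideanSpace ℝ (Fin n)) : Prop :=
  Topology.IsEmbedding φ ∧ Set.range φ = Metric.closedBall 0 1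

/-- Distances in `X` between points sent to the unit sphere are at least the Euclidean ones. -/
def Dominates {n : ℕ} {X : Type} [MetricSpace X] (φ : X → EuclideanSpace ℝ (Fin n)) : Prop :=
  ∀ x y : X, ‖φ x‖ = 1 → ‖φ y‖ = 1 → dist (φ x) (φ y) ≤ dist x y

/-- The volume of the Euclidean unit ball. -/
noncomputable def omega (n : ℕ) : ENNReal := volume (Metric.ball (0 : EuclideanSpace ℝ (Fin n)) 1)

theorem result : ∃ c : ℝ, 0 < c ∧ ∀ n : ℕ, 2 ≤ n →
    ∀ (X : Type) [MetricSpace X] [MeasurableSpace X] [BorelSpace X]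
      (φ : X → EuclideanSpace ℝ (Fin n)), IsBallChart φ → Dominates φ →
      ENNReal.ofReal ((c / Real.log n) ^ n) * omega n ≤
        Measure.euclideanHausdorffMeasure n (Set.univ : Set X) := by
  refine ⟨6336⁻¹, by norm_num, fun n hn X _ _ _ φ h1 h2 => ?_⟩
  refine Pool.Agent.Lib.MP_8115c2_gt.Log.lower_bound hn
    (h1.1.toHomeomorph.trans (Homeomorph.setCongr h1.2)) fun x y hx hy => ?_
  have := h2 x y hx hy
  rw [dist_eq_norm] at this
  exact this

end Pool.Agent.Results.MP_8115c2_gt.LogBound
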